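import Mathlib
import Pool.Agent.Lib_helper30.EvenHomeo.Defs

set_option autoImplicit false

/-!
# DRIFT: hitting by drift
-/

open Set Metric Topology

namespace Pool.Agent.EvenHomeo

open Pool.Agent.MinHomeo (RotChart)

namespace Drift

/-! ### Arithmetic -/

theorem cr_le (x : ℝ) (k : ℤ) : |cr x| ≤ |x - k| := round_le x k

theorem le_cr {x v c : ℝ} {m : ℤ} (hx : x = m + v) (h1 : c ≤ v) (h2 : v ≤ 1 - c) :
    c ≤ |cr x| := by
  unfold cr
  set n := round x
  rcases le_or_gt 0 (m - n) with h | h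
  · have h' : (0 : ℝ) ≤ m - n := by exact_mod_cast h
    refine le_trans ?_ (le_abs_self _)
    rw [hx]; linarith
  · have h' : (m : ℝ) - n ≤ -1 := by
      have : m - n ≤ -1 := by omega
      exact_mod_cast this
    refine le_trans ?_ (neg_le_abs _)
    rw [hx]; linarith

theorem le_cr_sgn {x v c : ℝ} {m σ : ℤ} (hσ : σ = 1 ∨ σ = -1) (hx : x = m + σ * v)
    (h1 : c ≤ v) (h2 : v ≤ 1 - c) : c ≤ |cr x| := by
  rcases hσ with rfl | rfl
  · exact le_cr (m := m) (v := v) (by rw [hx]; push_cast; ring) h1 h2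
  · exact le_cr (m := m - 1) (v := 1 - v) (by rw [hx]; push_cast; ring) (by linarith) (by linarith)

theorem cr_mul_le (q : ℕ) (x : ℝ) : |cr (q * x)| ≤ q * |cr x| := by
  have h := cr_le (q * x) (q * round x)
  refine h.trans (le_of_eq ?_)
  have : (q : ℝ) * x - ((q * round x : ℤ) : ℝ) = q * (x - round x) := by push_cast; ring
  rw [this, abs_mul, Nat.abs_cast]
  rfl

theorem cr_add_int (x : ℝ) (k : ℤ) : cr (x + k) = cr x := by
  unfold cr
  rw [round_add_intCast]
  push_cast; ring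

/-- among `q` consecutive times one is in the right residue class -/
theorem pick (q : ℕ) (hq : 1 ≤ q) (p' m : ℤ) (hcop : IsCoprime p' (q : ℤ)) (w r x : ℝ)
    (hw : 0 < w) (hwr : w ≤ 2 * r) (hx : q * r ≤ x) :
    ∃ i : ℕ, x - q * r ≤ i * w ∧ i * w ≤ x + q * r ∧ (q : ℤ) ∣ i * p' + m := by
  obtain ⟨u, v, huv⟩ := hcop
  set i1 : ℕ := ⌈(x - q * r) / w⌉₊ with hi1
  have hq0 : (0 : ℤ) < q := by exact_mod_cast hq
  have hmod0 : 0 ≤ (-m * u - i1) % (q : ℤ) := Int.emod_nonneg _ hq0.ne'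
  have hmod1 : (-m * u - i1) % (q : ℤ) < q := Int.emod_lt_of_pos _ hq0
  obtain ⟨d, hd⟩ := Int.eq_ofNat_of_zero_le hmod0
  refine ⟨i1 + d, ?_, ?_, ?_⟩
  · have h1 : (x - q * r) / w ≤ i1 := Nat.le_ceil _
    have h2 : x - q * r ≤ i1 * w := by rwa [div_le_iff₀ hw] at h1
    have h3 : (0 : ℝ) ≤ d * w := by positivity
    push_cast
    linarith [add_mul (i1 : ℝ) d w]
  · have h1 : (i1 : ℝ) < (x - q * r) / w + 1 :=
      Nat.ceil_lt_add_one (div_nonneg (by linarith) hw.le)
    have h2 : (i1 : ℝ) * w < x - q * r + w := by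
      have := mul_lt_mul_of_pos_right h1 hw
      rwa [add_mul, div_mul_cancel₀ _ hw.ne', one_mul] at this
    have h3 : (d : ℝ) ≤ q - 1 := by
      have : (d : ℤ) < q := by rw [hd] at hmod1; exact hmod1
      have : (d : ℤ) ≤ q - 1 := by omega
      exact_mod_cast this
    have h4 : (d : ℝ) * w ≤ (q - 1) * w := mul_le_mul_of_nonneg_right h3 hw.le
    have h5 : (q : ℝ) * w ≤ q * (2 * r) := mul_le_mul_of_nonneg_left hwr (Nat.cast_nonneg _)
    push_cast
    nlinarith
  · have h1 : ((i1 + d : ℕ) : ℤ) = -m * u - q * ((-m * u - i1) / q) := by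
      have := Int.emod_add_mul_ediv (-m * u - i1) q
      rw [hd] at this
      push_cast
      have e : ((d : ℕ) : ℤ) = Int.ofNat d := rfl
      omega
    rw [h1]
    refine ⟨m * v - ((-m * u - i1) / q) * p', ?_⟩
    have : u * p' = 1 - v * q := by linarith
    linear_combination (-m) * this

/-! ### The circle action -/

section

variable {X : Type} [NormedAddCommGroup X] [NormedSpace ℝ X] {Y B : Type} [MetricSpace Y]
  [MetricSpace B] (b : Base X Y B)

theorem R_zero (x : B) : b.R 0 x = x := by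
  have h := b.R_add 0 1 x
  rw [zero_add, b.R_one] at h
  exact h.symm

theorem R_nat (n : ℕ) (x : B) : b.R n x = x := by
  induction n with
  | zero => rw [Nat.cast_zero]; exact R_zero b x
  | succ n ih =>
    rw [Nat.cast_succ, b.R_add, b.R_one, ih]

theorem R_neg (t : ℝ) (x : B) : b.R (-t) (b.R t x) = x := by
  rw [← b.R_add, neg_add_cancel, R_zero]

theorem R_int (k : ℤ) (x : B) : b.R k x = x := by
  rcases k with n | n
  · exact R_nat b n x
  · have h := R_neg b (n + 1 : ℕ) x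
    rw [R_nat] at h
    push_cast at h ⊢
    rw [neg_add_rev] at h ⊢
    exact h

theorem R_add_int (t : ℝ) (k : ℤ) (x : B) : b.R (t + k) x = b.R t x := by
  rw [b.R_add, R_int]

/-- a uniform size of the hitting intervals -/
theorem exists_r [CompactSpace B] {V : Set (B × T)} (hV : IsOpen V)
    (hit : ∀ z υ, ∃ t, (b.R t z, υ) ∈ V) :
    ∃ r : ℝ, 0 < r ∧ ∀ p : B × T, ∃ t₀ : ℝ, ∀ t, |t - t₀| ≤ r → (b.R t p.1, p.2) ∈ V := by
  have key : ∃ r : ℝ, 0 < r ∧ ∀ p ∈ (univ : Set (B × T)), ∃ t₀ : ℝ, ∀ t, |t - t₀| ≤ r →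
      (b.R t p.1, p.2) ∈ V := by
    refine IsCompact.induction_on (isCompact_univ)
      (p := fun s : Set (B × T) => ∃ r : ℝ, 0 < r ∧ ∀ p ∈ s, ∃ t₀ : ℝ, ∀ t, |t - t₀| ≤ r →
        (b.R t p.1, p.2) ∈ V) ?_ ?_ ?_ ?_
    · exact ⟨1, one_pos, fun p hp => hp.elim⟩
    · rintro s t hst ⟨r, hr, h⟩
      exact ⟨r, hr, fun p hp => h p (hst hp)⟩
    · rintro s t ⟨r, hr, h⟩ ⟨r', hr', h'⟩
      refine ⟨min r r', lt_min hr hr', ?_⟩
      rintro p (hp | hp)
      · obtain ⟨t₀, ht⟩ := h p hp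
        exact ⟨t₀, fun t htt => ht t (htt.trans (min_le_left _ _))⟩
      · obtain ⟨t₀, ht⟩ := h' p hp
        exact ⟨t₀, fun t htt => ht t (htt.trans (min_le_right _ _))⟩
    · rintro ⟨z, υ⟩ _
      obtain ⟨t₀, ht₀⟩ := hit z υ
      have hcont : Continuous fun x : ℝ × (B × T) => (b.R x.1 x.2.1, x.2.2) :=
        (b.R_cont.comp (continuous_fst.prodMk (continuous_fst.comp continuous_snd))).prodMk
          (continuous_snd.comp continuous_snd)
      have hn : (fun x : ℝ × (B × T) => (b.R x.1 x.2.1, x.2.2)) ⁻¹' V ∈ 𝓝 (t₀, (z, υ)) :=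
        (hV.preimage hcont).mem_nhds ht₀
      rw [nhds_prod_eq, Filter.mem_prod_iff] at hn
      obtain ⟨a, ha, c, hc, hac⟩ := hn
      obtain ⟨r, hr, hra⟩ := Metric.mem_nhds_iff.mp ha
      refine ⟨c, mem_nhdsWithin_of_mem_nhds hc, r / 2, half_pos hr, ?_⟩
      intro p hp
      refine ⟨t₀, fun t ht => ?_⟩
      have : (t, p) ∈ a ×ˢ c := by
        refine ⟨hra ?_, hp⟩
        rw [Metric.mem_ball, Real.dist_eq]
        linarith
      exact hac this
  obtain ⟨r, hr, h⟩ := key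
  exact ⟨r, hr, fun p => h p (mem_univ p)⟩

/-- free motion -/
theorem free {S : B × T → B × T} {c : B → T} {γ : ℝ}
    (hS : ∀ z υ, S (z, υ) = (b.R γ z, υ + c z)) (z : B) (υ : T) (i : ℕ)
    (hc : ∀ j < i, c (b.R (j * γ) z) = 0) : S^[i] (z, υ) = (b.R (i * γ) z, υ) := by
  induction i with
  | zero => simp [R_zero]
  | succ i ih =>
    have e : γ + (i : ℝ) * γ = ((i + 1 : ℕ) : ℝ) * γ := by push_cast; ring
    rw [Function.iterate_succ_apply', ih (fun j hj => hc j (by omega)), hS,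
      hc i (by omega), add_zero, ← b.R_add, e]

/-- motion in the base -/
theorem base_iter {S : B × T → B × T} {c : B → T} {γ : ℝ}
    (hS : ∀ z υ, S (z, υ) = (b.R γ z, υ + c z)) (z : B) (υ : T) (i : ℕ) :
    ∃ υ' : T, S^[i] (z, υ) = (b.R (i * γ) z, υ') := by
  induction i with
  | zero => exact ⟨υ, by simp [R_zero]⟩
  | succ i ih =>
    obtain ⟨υ', h⟩ := ih
    have e : γ + (i : ℝ) * γ = ((i + 1 : ℕ) : ℝ) * γ := by push_cast; ring
    refine ⟨υ' + c (b.R (i * γ) z), ?_⟩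
    rw [Function.iterate_succ_apply', h, hS, ← b.R_add, e]

/-- the hit, once the time is chosen -/
theorem hit_of {V : Set (B × T)} {r : ℝ} (q : ℕ) (hq : 1 ≤ q) (p' : ℤ)
    (hcop : IsCoprime p' (q : ℤ)) {γ w : ℝ} {σ : ℤ} (hσ : σ = 1 ∨ σ = -1)
    (hω : σ * w = q * γ - p') (hω0 : 0 < w) (hwr : w ≤ 2 * r)
    {z : B} {υ : T} {t₀ : ℝ} (ht₀ : ∀ t, |t - t₀| ≤ r → (b.R t z, υ) ∈ V)
    (n : ℤ) (hx : q * r ≤ σ * (q * t₀) - n) :
    ∃ i : ℕ, i * w ≤ σ * (q * t₀) - n + q * r ∧ (b.R (i * γ) z, υ) ∈ V := by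
  obtain ⟨i, hi1, hi2, k, hk⟩ := pick q hq p' (-(σ * n)) hcop w r _ hω0 hwr hx
  refine ⟨i, hi2, ?_⟩
  have hq0 : (0 : ℝ) < q := by exact_mod_cast hq
  have hk' : (i : ℝ) * p' + -(σ * n) = q * k := by exact_mod_cast hk
  have hσ2 : (σ : ℝ) * σ = 1 := by rcases hσ with rfl | rfl <;> norm_num
  have hγ : (i : ℝ) * γ = (i * γ - k) + k := by ring
  rw [hγ, R_add_int]
  apply ht₀
  have e : q * ((i : ℝ) * γ - k - t₀) = σ * (i * w - (σ * (q * t₀) - n)) := by
    linear_combination (-(i : ℝ)) * hω + hk' + (q : ℝ) * t₀ * hσ2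
  have h5 : |(q : ℝ) * ((i : ℝ) * γ - k - t₀)| ≤ q * r := by
    rw [e, abs_mul]
    have : |(σ : ℝ)| = 1 := by rcases hσ with rfl | rfl <;> norm_num
    rw [this, one_mul, abs_le]
    constructor <;> linarith
  rw [abs_mul, Nat.abs_cast] at h5
  exact le_of_mul_le_mul_left h5 hq0

/-- **Core of the drift argument** (one direction of time). -/
theorem core {V : Set (B × T)} {r lam : ℝ} (hr : 0 < r)
    (hit : ∀ p : B × T, ∃ t₀ : ℝ, ∀ t, |t - t₀| ≤ r → (b.R t p.1, p.2) ∈ V)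
    (p q : ℕ) (hq : 1 ≤ q) (hlam : 0 < lam)
    (hV : ∀ x ∈ V, x.1 ∉ b.slab p q (2 * lam)) (p' : ℤ)
    (hcop : IsCoprime p' (q : ℤ)) {γ w : ℝ} {σ : ℤ} (hσ : σ = 1 ∨ σ = -1)
    (hω : σ * w = q * γ - p') (hw : 0 < w) (hwr : w ≤ 2 * r) (hwl : w ≤ q * lam)
    {S : B × T → B × T} {c : B → T} (hS : ∀ z υ, S (z, υ) = (b.R γ z, υ + c z))
    (hc1 : ∀ z, z ∉ b.β '' {x | -(1 / 20) ≤ b.ρ x.1} → c z = 0)
    (hc2 : ∀ y s θ, (∀ t : ℝ, 0 ≤ t → t ≤ 1 → q * lam ≤ |cr (q * θ - p * s + t * (σ * w))|) →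
      c (b.β (y, s, θ)) = 0) :
    ∃ N : ℕ, ∀ x, ∃ a ≤ N, S^[a] x ∈ V := by
  have hq0 : (0 : ℝ) < q := by exact_mod_cast hq
  have hσ2 : (σ : ℝ) * σ = 1 := by rcases hσ with rfl | rfl <;> norm_num
  have hσabs : |(σ : ℝ)| = 1 := by rcases hσ with rfl | rfl <;> norm_num
  refine ⟨⌈1 / w⌉₊ + ⌈(1 + 2 * q * r) / w⌉₊ + 1, ?_⟩
  rintro ⟨z, υ⟩
  by_cases hz : z ∈ b.β '' {x | -(1 / 20) ≤ b.ρ x.1}
  · -- the drift sweeps the complement of the slab
    obtain ⟨⟨y, s, θ⟩, hy, rfl⟩ := hz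
    simp only [Set.mem_ofPred_eq] at hy
    -- waiting time
    set a₀ : ℝ := σ * (q * θ - p * s) with ha₀
    set m₂ : ℤ := ⌈a₀ - q * lam⌉ with hm₂
    have hm1 : a₀ - m₂ ≤ q * lam := by
      have := Int.le_ceil (a₀ - q * lam)
      rw [← hm₂] at this
      linarith
    have hm2 : q * lam - 1 < a₀ - m₂ := by
      have := Int.ceil_lt_add_one (a₀ - q * lam)
      rw [← hm₂] at this
      linarith
    set i₀ : ℕ := ⌈(q * lam - (a₀ - m₂)) / w⌉₊ with hi₀
    have hi1 : q * lam ≤ a₀ - m₂ + i₀ * w := by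
      have := Nat.le_ceil ((q * lam - (a₀ - m₂)) / w)
      rw [← hi₀, div_le_iff₀ hw] at this
      linarith
    have hi2 : a₀ - m₂ + i₀ * w < q * lam + w := by
      have h := Nat.ceil_lt_add_one (div_nonneg (by linarith : 0 ≤ q * lam - (a₀ - m₂)) hw.le)
      rw [← hi₀] at h
      have := mul_lt_mul_of_pos_right h hw
      rw [add_mul, div_mul_cancel₀ _ hw.ne', one_mul] at this
      linarith
    have hi3 : i₀ ≤ ⌈1 / w⌉₊ := by
      rw [hi₀]
      apply Nat.ceil_mono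
      apply div_le_div_of_nonneg_right _ hw.le
      linarith
    obtain ⟨υ', hυ'⟩ := base_iter b hS (b.β (y, s, θ)) υ i₀
    rw [b.R_β] at hυ'
    set θ' : ℝ := θ + i₀ * γ with hθ'
    set A : ℝ := q * θ' - p * s with hA
    -- the representative
    set m₃ : ℤ := m₂ + σ * (i₀ * p') with hm₃
    set a : ℝ := σ * A - m₃ with ha
    have haeq : a = a₀ - m₂ + i₀ * w := by
      rw [ha, hA, hθ', hm₃, ha₀]
      push_cast
      linear_combination (-(i₀ : ℝ) * σ) * hω + (i₀ : ℝ) * w * hσ2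
    have ha1 : q * lam ≤ a := by rw [haeq]; exact hi1
    have ha2 : a < q * lam + w := by rw [haeq]; exact hi2
    have hAa : A = σ * a + σ * m₃ := by
      rw [ha]
      linear_combination (-A) * hσ2
    obtain ⟨t₀, ht₀⟩ := hit (b.β (y, s, θ'), υ')
    simp only at ht₀
    -- avoiding the slab
    have hav : ∀ t, |t - t₀| ≤ r → q * (2 * lam) < |cr (A + q * t)| := by
      intro t ht
      by_contra hcon
      push Not at hcon
      refine hV _ (ht₀ t ht) ⟨y, s, θ' + t, ?_, hy, ?_⟩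
      · simp only
        rw [b.R_β]
      · have : (q : ℝ) * (θ' + t) - p * s = A + q * t := by rw [hA]; ring
        rw [this]
        exact hcon
    set v₀ : ℝ := a + σ * (q * t₀) with hv₀
    set n : ℤ := ⌊v₀⌋ with hn
    have hn1 : (n : ℝ) ≤ v₀ := Int.floor_le v₀
    have hn2 : v₀ < n + 1 := Int.lt_floor_add_one v₀
    -- a point with prescribed position
    have hpt : ∀ c₁ : ℝ, |v₀ - n - c₁| ≤ q * r →
        ∃ t, |t - t₀| ≤ r ∧ A + q * t = σ * c₁ + ((σ * (n + m₃) : ℤ) : ℝ) := by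
      intro c₁ hc₁
      refine ⟨t₀ + σ * (c₁ - (v₀ - n)) / q, ?_, ?_⟩
      · have : t₀ + σ * (c₁ - (v₀ - n)) / q - t₀ = σ * (c₁ - (v₀ - n)) / q := by ring
        rw [this, abs_div, abs_mul, hσabs, one_mul, Nat.abs_cast, abs_sub_comm,
          div_le_iff₀ hq0]
        linarith
      · rw [hAa, hv₀]
        push_cast
        field_simp
        linear_combination (-(q : ℝ) * t₀) * hσ2
    have hlow : 2 * (q * lam) < v₀ - n - q * r := by
      by_contra hcon
      push Not at hcon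
      -- first the centre
      have h0 : 2 * (q * lam) < v₀ - n := by
        by_contra h1
        push Not at h1
        obtain ⟨t, ht, hAt⟩ := hpt (v₀ - n) (by simp; positivity)
        have h2 := hav t ht
        have h3 := cr_le (A + q * t) (σ * (n + m₃))
        have h4 : A + q * t - ((σ * (n + m₃) : ℤ) : ℝ) = σ * (v₀ - n) := by
          rw [hAt]; ring
        rw [h4, abs_mul, hσabs, one_mul, abs_of_nonneg (a := v₀ - n) (by linarith)] at h3
        linarith
      obtain ⟨t, ht, hAt⟩ := hpt (2 * (q * lam)) (by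
        rw [abs_of_pos (by linarith)]; linarith)
      have h2 := hav t ht
      have h3 := cr_le (A + q * t) (σ * (n + m₃))
      have h4 : A + q * t - ((σ * (n + m₃) : ℤ) : ℝ) = σ * (2 * (q * lam)) := by
        rw [hAt]; ring
      rw [h4, abs_mul, hσabs, one_mul,
        abs_of_nonneg (a := 2 * (q * lam)) (by positivity)] at h3
      linarith
    have hhigh : v₀ - n + q * r < 1 - 2 * (q * lam) := by
      by_contra hcon
      push Not at hcon
      have h0 : v₀ - n < 1 - 2 * (q * lam) := by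
        by_contra h1
        push Not at h1
        obtain ⟨t, ht, hAt⟩ := hpt (v₀ - n) (by simp; positivity)
        have h2 := hav t ht
        have h3 := cr_le (A + q * t) (σ * (n + m₃) + σ)
        have h4 : A + q * t - ((σ * (n + m₃) + σ : ℤ) : ℝ) = σ * (v₀ - n - 1) := by
          rw [hAt]; push_cast; ring
        rw [h4, abs_mul, hσabs, one_mul, abs_of_neg (a := v₀ - n - 1) (by linarith)] at h3
        linarith
      obtain ⟨t, ht, hAt⟩ := hpt (1 - 2 * (q * lam)) (by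
        rw [abs_of_neg (by linarith)]; linarith)
      have h2 := hav t ht
      have h3 := cr_le (A + q * t) (σ * (n + m₃) + σ)
      have h4 : A + q * t - ((σ * (n + m₃) + σ : ℤ) : ℝ) = σ * (-(2 * (q * lam))) := by
        rw [hAt]; push_cast; ring
      rw [h4, abs_mul, hσabs, one_mul, abs_neg,
        abs_of_nonneg (a := 2 * (q * lam)) (by positivity)] at h3
      linarith
    -- the hit
    have hx : q * r ≤ σ * (q * t₀) - n := by
      have : σ * (q * t₀) - n = v₀ - n - a := by rw [hv₀]; ring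
      rw [this]
      linarith
    obtain ⟨i, hi, hiV⟩ := hit_of b q hq p' hcop hσ hω hw hwr ht₀ n hx
    have hfree : S^[i] (b.β (y, s, θ'), υ') = (b.R (i * γ) (b.β (y, s, θ')), υ') := by
      apply free b hS
      intro j hj
      rw [b.R_β]
      apply hc2
      intro t ht0 ht1
      refine le_cr_sgn (v := a + (j + t) * w) (m := σ * m₃ + j * p') hσ ?_ ?_ ?_
      · have : (q : ℝ) * (θ' + j * γ) - p * s = A + j * (q * γ) := by rw [hA]; ring
        rw [this, hAa]
        push_cast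
        linear_combination (-(j : ℝ)) * hω
      · have : 0 ≤ ((j : ℝ) + t) * w := by positivity
        linarith
      · have h1 : ((j : ℝ) + t) * w ≤ i * w := by
          apply mul_le_mul_of_nonneg_right _ hw.le
          have : (j : ℝ) + 1 ≤ i := by exact_mod_cast hj
          linarith
        have h2 : σ * (q * t₀) - n = v₀ - n - a := by rw [hv₀]; ring
        rw [h2] at hi
        linarith
    refine ⟨i + i₀, ?_, ?_⟩
    · have h1 : i ≤ ⌈(1 + 2 * q * r) / w⌉₊ := by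
        have h2 : (i : ℝ) ≤ (1 + 2 * q * r) / w := by
          rw [le_div_iff₀ hw]
          have h3 : σ * (q * t₀) - n = v₀ - n - a := by rw [hv₀]; ring
          rw [h3] at hi
          have : 0 < q * lam := by positivity
          have : 0 < q * r := by positivity
          linarith
        exact_mod_cast h2.trans (Nat.le_ceil _)
      omega
    · rw [Function.iterate_add_apply, hυ', hfree]
      exact hiV
  · -- no twist at all
    obtain ⟨t₀, ht₀⟩ := hit (z, υ)
    simp only at ht₀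
    set n : ℤ := ⌊σ * (q * t₀) - q * r⌋ with hn
    have hn1 : (n : ℝ) ≤ σ * (q * t₀) - q * r := Int.floor_le _
    have hn2 : σ * (q * t₀) - q * r < n + 1 := Int.lt_floor_add_one _
    obtain ⟨i, hi, hiV⟩ := hit_of b q hq p' hcop hσ hω hw hwr ht₀ n (by linarith)
    have hfree : S^[i] (z, υ) = (b.R (i * γ) z, υ) := by
      apply free b hS
      intro j _
      apply hc1
      rintro ⟨⟨y, s, θ⟩, hy, h⟩
      apply hz
      refine ⟨(y, s, θ - j * γ), hy, ?_⟩
      have h2 := congrArg (b.R (-(j * γ))) h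
      rw [R_neg, b.R_β] at h2
      rw [← h2]
      congr 1
    refine ⟨i, ?_, ?_⟩
    · have h1 : i ≤ ⌈(1 + 2 * q * r) / w⌉₊ := by
        have h2 : (i : ℝ) ≤ (1 + 2 * q * r) / w := by
          rw [le_div_iff₀ hw]
          linarith
        exact_mod_cast h2.trans (Nat.le_ceil _)
      omega
    · rw [hfree]
      exact hiV

theorem D_zero {lam r θ : ℝ} (hlam : 0 < lam) (h : lam ≤ |cr θ|) : D lam r θ = 0 := by
  unfold D
  split_ifs with hr
  · rfl
  · push Not at hr
    have hw : 0 < min lam r := lt_min hlam hr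
    have hle : min lam r ≤ |cr θ| := (min_le_left _ _).trans h
    unfold tw
    rcases le_abs.mp hle with h1 | h1
    · have h2 : 1 ≤ cr θ / min lam r := by rwa [le_div_iff₀ hw, one_mul]
      rw [min_eq_left h2, max_eq_right (by norm_num : (-1 : ℝ) ≤ 1)]
      norm_num
    · have h2 : cr θ / min lam r ≤ -1 := by
        rw [div_le_iff₀ hw]; linarith
      rw [min_eq_right (h2.trans (by norm_num)), max_eq_left h2]
      norm_num

theorem D_zero' {lam r θ : ℝ} (h : r ≤ 0) : D lam r θ = 0 := by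
  unfold D
  rw [if_pos h]

theorem cross_zero {lam α : ℝ} {z : B}
    (h : ∀ y s θ, 0 ≤ s → s < 1 → b.β (y, s, θ) = z → D lam (b.ρ y) (θ + α * (1 - s)) = 0) :
    b.cross lam α z = 0 := by
  unfold Base.cross
  split_ifs with hq
  · obtain ⟨⟨h0, h1⟩, h2⟩ := hq.choose_spec
    exact h _ _ _ h0 h1 h2
  · rfl

theorem cross_zero_of_not_mem {lam α : ℝ} {z : B}
    (hz : z ∉ b.β '' {x | -(1 / 20) ≤ b.ρ x.1}) : b.cross lam α z = 0 := by
  apply cross_zero
  intro y s θ _ _ h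
  apply D_zero'
  by_contra hcon
  push Not at hcon
  apply hz
  refine ⟨(y, s, θ), ?_, h⟩
  change -(1 / 20) ≤ b.ρ y
  linarith

/-- No crossing of the twisted region, seen from the quotient. -/
theorem cross_zero_of {lam α ω : ℝ} (hlam : 0 < lam) (p q : ℕ) (hq : 1 ≤ q)
    (hω : ω = q * α - p) {y : Y} {s θ : ℝ}
    (h : ∀ t : ℝ, 0 ≤ t → t ≤ 1 → q * lam ≤ |cr (q * θ - p * s + t * ω)|) :
    b.cross lam α (b.β (y, s, θ)) = 0 := by
  have hq0 : (0 : ℝ) < q := by exact_mod_cast hq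
  apply cross_zero
  intro y₁ s₁ θ₁ h0 h1 he
  rw [b.β_eq] at he
  obtain ⟨rfl, ⟨k, hk⟩, k', hk'⟩ := he
  apply D_zero hlam
  have h2 := cr_mul_le q (θ₁ + α * (1 - s₁))
  have h3 := h (1 - s₁) (by linarith) (by linarith)
  have h4 : (q : ℝ) * (θ₁ + α * (1 - s₁)) =
      (q * θ - p * s + (1 - s₁) * ω) + ((p - q * k' + p * k : ℤ) : ℝ) := by
    rw [hω, hk, hk']
    push_cast
    ring
  rw [h4, cr_add_int] at h2
  exact le_of_mul_le_mul_left (h3.trans h2) hq0

end

end Drift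

/-- **DRIFT.** -/
theorem drift {X : Type} [NormedAddCommGroup X] [NormedSpace ℝ X] {Y B : Type} [MetricSpace Y]
    [MetricSpace B] [CompactSpace B] (b : Base X Y B) : Drift_Stmt b := by
  intro lam p q V hlam _ _ hq hcop _ _ hVo hV hit
  obtain ⟨r, hr, hr'⟩ := Drift.exists_r b hVo hit
  have hq0 : (0 : ℝ) < q := by exact_mod_cast hq
  refine ⟨min (2 * r / q) lam, lt_min (by positivity) hlam, ?_⟩
  intro α hα hακ
  set ω : ℝ := q * α - p with hω
  have hω1 : ω = q * (α - p / q) := by rw [hω]; field_simp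
  have hω0 : ω ≠ 0 := by
    rw [hω1]
    exact mul_ne_zero hq0.ne' (sub_ne_zero.mpr hα)
  have hω2 : |ω| = q * |α - p / q| := by rw [hω1, abs_mul, Nat.abs_cast]
  have hw : 0 < |ω| := abs_pos.mpr hω0
  have hwr : |ω| ≤ 2 * r := by
    have h1 : |α - p / q| ≤ 2 * r / q := (hακ.trans_le (min_le_left _ _)).le
    rw [hω2]
    rw [le_div_iff₀ hq0] at h1
    linarith
  have hwl : |ω| ≤ q * lam := by
    have h1 : |α - p / q| ≤ lam := (hακ.trans_le (min_le_right _ _)).le
    rw [hω2]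
    exact mul_le_mul_of_nonneg_left h1 hq0.le
  obtain ⟨σ, hσ, hσw⟩ : ∃ σ : ℤ, (σ = 1 ∨ σ = -1) ∧ σ * |ω| = ω := by
    rcases lt_or_gt_of_ne hω0 with h | h
    · exact ⟨-1, Or.inr rfl, by rw [abs_of_neg h]; push_cast; ring⟩
    · exact ⟨1, Or.inl rfl, by rw [abs_of_pos h]; push_cast; ring⟩
  have hcop' : IsCoprime (p : ℤ) (q : ℤ) := Nat.isCoprime_iff_coprime.mpr hcop
  -- forward
  obtain ⟨N₁, hN₁⟩ := Drift.core b hr hr' p q hq hlam hV (p : ℤ) hcop'
    (γ := α) (w := |ω|) (σ := σ) hσ (by rw [hσw, hω]; push_cast; ring) hw hwr hwl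
    (S := b.L lam α) (c := b.cross lam α) (fun z υ => rfl)
    (fun z hz => Drift.cross_zero_of_not_mem b hz) (by
      intro y s θ h
      apply Drift.cross_zero_of b hlam p q hq hω
      intro t ht0 ht1
      have := h t ht0 ht1
      rwa [hσw] at this)
  -- backward
  obtain ⟨N₂, hN₂⟩ := Drift.core b hr hr' p q hq hlam hV (-(p : ℤ)) hcop'.neg_left
    (γ := -α) (w := |ω|) (σ := -σ) (by omega)
    (by push_cast; rw [neg_mul, hσw, hω]; ring) hw hwr hwl
    (S := (b.L lam α).symm) (c := fun z => -b.cross lam α (b.R (-α) z))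
    (fun z υ => by
      rw [← sub_eq_add_neg]; rfl)
    (fun z hz => by
      rw [Drift.cross_zero_of_not_mem b, neg_zero]
      rintro ⟨⟨y, s, θ⟩, hy, h⟩
      apply hz
      refine ⟨(y, s, θ + α), hy, ?_⟩
      have h2 := congrArg (b.R α) h
      rw [b.R_β] at h2
      rw [h2, ← b.R_add, add_neg_cancel, Drift.R_zero]) (by
      intro y s θ h
      rw [neg_eq_zero, b.R_β]
      apply Drift.cross_zero_of b hlam p q hq hω
      intro t ht0 ht1
      have h1 := h (1 - t) (by linarith) (by linarith)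
      have h2 : (q : ℝ) * θ - p * s + (1 - t) * (((-σ : ℤ) : ℝ) * |ω|) =
          (q * (θ + -α) - p * s + t * ω) + ((p : ℤ) : ℝ) := by
        push_cast
        rw [neg_mul, hσw, hω]
        ring
      rwa [h2, Drift.cr_add_int] at h1)
  refine ⟨max N₁ N₂, fun x => ⟨?_, ?_⟩⟩
  · obtain ⟨a, ha, h⟩ := hN₁ x
    exact ⟨a, ha.trans (le_max_left _ _), h⟩
  · obtain ⟨a, ha, h⟩ := hN₂ x
    exact ⟨a, ha.trans (le_max_right _ _), h⟩

end Pool.Agent.EvenHomeo
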